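import Mathlib

open MvPolynomial

namespace Pool.Agent.LibPadicCubic

variable (p : ℕ) [hp : Fact p.Prime]

/-- An integral ternary cubic form without nontrivial zeros modulo `p`. -/
lemma exists_ternary : ∃ N : MvPolynomial (Fin 3) ℤ, N.IsHomogeneous 3 ∧
    ∀ x : Fin 3 → ZMod p, eval₂ (Int.castRingHom (ZMod p)) x N = 0 → x = 0 := by
  classical
  let K := GaloisField p 3
  have hfr : Module.finrank (ZMod p) K = 3 := GaloisField.finrank p (by norm_num)
  let b : Module.Basis (Fin 3) (ZMod p) K := Module.finBasisOfFinrankEq (ZMod p) K hfr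
  let M : Fin 3 → Matrix (Fin 3) (Fin 3) (ZMod p) := fun i => Algebra.leftMulMatrix b (b i)
  let A : Matrix (Fin 3) (Fin 3) (MvPolynomial (Fin 3) ℤ) :=
    Matrix.of fun j k => ∑ i, X i * C ((M i j k).val : ℤ)
  refine ⟨A.det, ?_, ?_⟩
  · rw [Matrix.det_apply]
    apply IsHomogeneous.sum
    intro σ _
    have h1 : (∏ i, A (σ i) i).IsHomogeneous 3 := by
      have h2 := IsHomogeneous.prod Finset.univ (fun i => A (σ i) i) (fun _ => 1) (by
        intro i _
        have hA : A (σ i) i = ∑ k, X k * C ((M k (σ i) i).val : ℤ) := rfl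
        rw [hA]
        apply IsHomogeneous.sum
        intro k _
        have := (isHomogeneous_X ℤ k).mul (isHomogeneous_C (Fin 3) ((M k (σ i) i).val : ℤ))
        simpa using this)
      simpa using h2
    rcases Int.units_eq_one_or (Equiv.Perm.sign σ) with h | h
    · rw [h, one_smul]; exact h1
    · rw [h, Units.neg_smul, one_smul]; exact h1.neg
  · intro x hx
    have h1 : eval₂ (Int.castRingHom (ZMod p)) x A.det
        = (Algebra.leftMulMatrix b (∑ i, x i • b i)).det := by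
      have h2 : eval₂ (Int.castRingHom (ZMod p)) x A.det
          = (eval₂Hom (Int.castRingHom (ZMod p)) x) A.det := rfl
      rw [h2, RingHom.map_det]
      congr 1
      ext j k
      rw [map_sum]
      simp only [RingHom.mapMatrix_apply, Matrix.map_apply, Matrix.sum_apply, map_smul,
        Matrix.smul_apply, A, Matrix.of_apply, map_sum, map_mul, smul_eq_mul]
      apply Finset.sum_congr rfl
      intro i _
      simp [M]
    rw [h1] at hx
    have h3 : (∑ i, x i • b i) = 0 := by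
      rw [← Algebra.norm_eq_matrix_det b] at hx
      exact Algebra.norm_eq_zero_iff.mp hx
    funext i
    exact Fintype.linearIndependent_iff.mp b.linearIndependent x h3 i

lemma eval₂_scale {R S : Type*} [CommSemiring R] [CommSemiring S] {n m : ℕ} (f : R →+* S)
    (N : MvPolynomial (Fin n) R) (hN : N.IsHomogeneous m) (c : S) (v : Fin n → S) :
    eval₂ f (fun i => c * v i) N = c ^ m * eval₂ f v N := by
  rw [eval₂_eq', eval₂_eq', Finset.mul_sum]
  apply Finset.sum_congr rfl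
  intro d hd
  have h1 : d.degree = m := by
    by_contra h
    exact (mem_support_iff.mp hd) (hN.coeff_eq_zero h)
  have h2 : ∑ i, d i = m := by
    rw [← h1, Finsupp.degree_eq_sum]
  simp only [mul_pow, Finset.prod_mul_distrib]
  rw [Finset.prod_pow_eq_pow_sum, h2]
  ring

/-- Norm of the values of a form that is anisotropic modulo `p`. -/
lemma norm_value (N : MvPolynomial (Fin 3) ℤ) (hN : N.IsHomogeneous 3)
    (hani : ∀ x : Fin 3 → ZMod p, eval₂ (Int.castRingHom (ZMod p)) x N = 0 → x = 0)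
    (v : Fin 3 → ℚ_[p]) (hv : v ≠ 0) :
    ∃ k : ℤ, ‖eval₂ (Int.castRingHom ℚ_[p]) v N‖ = (p : ℝ) ^ (3 * k) := by
  obtain ⟨i, hi⟩ := Finite.exists_max (fun j => ‖v j‖)
  have hvi : v i ≠ 0 := by
    intro h
    apply hv
    funext j
    have := hi j
    simp only [h, norm_zero] at this
    exact norm_le_zero_iff.mp this
  have hle : ∀ j, ‖v j / v i‖ ≤ 1 := by
    intro j
    rw [norm_div]
    exact div_le_one_of_le₀ (hi j) (norm_nonneg _)
  let w : Fin 3 → ℤ_[p] := fun j => ⟨v j / v i, hle j⟩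
  have h1 : ((eval₂ (Int.castRingHom ℤ_[p]) w N : ℤ_[p]) : ℚ_[p])
      = eval₂ (Int.castRingHom ℚ_[p]) (fun j => v j / v i) N := by
    have h2 : ((eval₂ (Int.castRingHom ℤ_[p]) w N : ℤ_[p]) : ℚ_[p])
      = PadicInt.Coe.ringHom (eval₂ (Int.castRingHom ℤ_[p]) w N) := rfl
    rw [h2, MvPolynomial.hom_eval₂]
    congr 1
  have h3 : PadicInt.toZMod (eval₂ (Int.castRingHom ℤ_[p]) w N) ≠ 0 := by
    rw [MvPolynomial.hom_eval₂]
    intro h
    have h4 : (PadicInt.toZMod.comp (Int.castRingHom ℤ_[p])) = Int.castRingHom (ZMod p) :=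
      RingHom.ext_int _ _
    rw [h4] at h
    have h5 := congrFun (hani _ h) i
    have h6 : w i = 1 := by
      apply Subtype.ext
      simp [w, div_self hvi]
    simp [h6] at h5
  have h7 : ‖eval₂ (Int.castRingHom ℤ_[p]) w N‖ = 1 := by
    have h8 : eval₂ (Int.castRingHom ℤ_[p]) w N ∉ IsLocalRing.maximalIdeal ℤ_[p] := by
      rw [← PadicInt.ker_toZMod]
      exact h3
    rw [IsLocalRing.mem_maximalIdeal, mem_nonunits_iff, not_not] at h8
    exact PadicInt.isUnit_iff.mp h8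
  have h9 : eval₂ (Int.castRingHom ℚ_[p]) v N
      = (v i) ^ 3 * eval₂ (Int.castRingHom ℚ_[p]) (fun j => v j / v i) N := by
    rw [← eval₂_scale _ N hN]
    congr 1
    funext j
    field_simp
  obtain ⟨k, hk⟩ := (Padic.padicNormE.image hvi)
  refine ⟨-k, ?_⟩
  rw [h9, ← h1, norm_mul, norm_pow]
  have h10 : ‖((eval₂ (Int.castRingHom ℤ_[p]) w N : ℤ_[p]) : ℚ_[p])‖ = 1 := h7
  rw [h10, mul_one, hk, mul_comm 3 (-k), zpow_mul]
  push_cast
  norm_num

lemma zpow_inj' {m n : ℤ} (h : (p : ℝ) ^ m = (p : ℝ) ^ n) : m = n := by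
  have h1 : (1 : ℝ) < p := by exact_mod_cast hp.out.one_lt
  exact zpow_right_injective₀ (by linarith) (by linarith) h

lemma three_sum (a b c : ℚ_[p]) (ha : a = 0 ∨ ∃ k : ℤ, ‖a‖ = (p : ℝ) ^ (3 * k))
    (hb : b = 0 ∨ ∃ k : ℤ, ‖b‖ = (p : ℝ) ^ (3 * k - 1))
    (hc : c = 0 ∨ ∃ k : ℤ, ‖c‖ = (p : ℝ) ^ (3 * k - 2)) (h : a + b + c = 0) :
    a = 0 ∧ b = 0 ∧ c = 0 := by
  rcases ha with rfl | ⟨k, hk⟩ <;> rcases hb with rfl | ⟨l, hl⟩ <;> rcases hc with rfl | ⟨m, hm⟩
  · exact ⟨rfl, rfl, rfl⟩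
  · exact ⟨rfl, rfl, by simpa using h⟩
  · exact ⟨rfl, by simpa using h, rfl⟩
  · exfalso
    have h1 : b = -c := by linear_combination h
    rw [h1, norm_neg, hm] at hl
    have := zpow_inj' p hl
    omega
  · exact ⟨by simpa using h, rfl, rfl⟩
  · exfalso
    have h1 : a = -c := by linear_combination h
    rw [h1, norm_neg, hm] at hk
    have := zpow_inj' p hk
    omega
  · exfalso
    have h1 : a = -b := by linear_combination h
    rw [h1, norm_neg, hl] at hk
    have := zpow_inj' p hk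
    omega
  · exfalso
    have h1 : ‖a‖ ≠ ‖b‖ := by
      rw [hk, hl]
      intro h2
      have := zpow_inj' p h2
      omega
    have h2 := Padic.add_eq_max_of_ne h1
    have h3 : a + b = -c := by linear_combination h
    rw [h3, norm_neg, hm, hk, hl] at h2
    rcases max_choice ((p : ℝ) ^ (3 * k)) ((p : ℝ) ^ (3 * l - 1)) with h4 | h4
    · rw [h4] at h2
      have := zpow_inj' p h2
      omega
    · rw [h4] at h2
      have := zpow_inj' p h2
      omega

lemma nine_aniso (N : MvPolynomial (Fin 3) ℤ) (hN : N.IsHomogeneous 3)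
    (hani : ∀ x : Fin 3 → ZMod p, eval₂ (Int.castRingHom (ZMod p)) x N = 0 → x = 0)
    (x y z : Fin 3 → ℚ_[p])
    (h : eval₂ (Int.castRingHom ℚ_[p]) x N + p * eval₂ (Int.castRingHom ℚ_[p]) y N
      + p ^ 2 * eval₂ (Int.castRingHom ℚ_[p]) z N = 0) : x = 0 ∧ y = 0 ∧ z = 0 := by
  have hp0 : (p : ℝ) ≠ 0 := by exact_mod_cast hp.out.ne_zero
  have key : ∀ v : Fin 3 → ℚ_[p], eval₂ (Int.castRingHom ℚ_[p]) v N = 0 → v = 0 := by
    intro v hv
    by_contra hne
    obtain ⟨k, hk⟩ := norm_value p N hN hani v hne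
    rw [hv, norm_zero] at hk
    exact (zpow_ne_zero _ hp0) hk.symm
  have hx : eval₂ (Int.castRingHom ℚ_[p]) x N = 0 ∨
      ∃ k : ℤ, ‖eval₂ (Int.castRingHom ℚ_[p]) x N‖ = (p : ℝ) ^ (3 * k) := by
    by_cases hx : x = 0
    · left
      have := eval₂_scale (Int.castRingHom ℚ_[p]) N hN 0 x
      simp only [zero_mul] at this
      rw [hx]
      simpa using this
    · right; exact norm_value p N hN hani x hx
  have hz0 : eval₂ (Int.castRingHom ℚ_[p]) (0 : Fin 3 → ℚ_[p]) N = 0 := by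
    have := eval₂_scale (Int.castRingHom ℚ_[p]) N hN 0 (0 : Fin 3 → ℚ_[p])
    simp only [zero_mul] at this
    have h2 : (fun _ : Fin 3 => (0 : ℚ_[p])) = 0 := rfl
    rw [h2] at this
    simpa using this
  have hy : (p : ℚ_[p]) * eval₂ (Int.castRingHom ℚ_[p]) y N = 0 ∨
      ∃ k : ℤ, ‖(p : ℚ_[p]) * eval₂ (Int.castRingHom ℚ_[p]) y N‖ = (p : ℝ) ^ (3 * k - 1) := by
    by_cases hy : y = 0
    · left; rw [hy, hz0, mul_zero]
    · right
      obtain ⟨k, hk⟩ := norm_value p N hN hani y hy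
      refine ⟨k, ?_⟩
      rw [norm_mul, hk, Padic.norm_p, zpow_sub₀ hp0, zpow_one]
      field_simp
  have hz : (p : ℚ_[p]) ^ 2 * eval₂ (Int.castRingHom ℚ_[p]) z N = 0 ∨
      ∃ k : ℤ, ‖(p : ℚ_[p]) ^ 2 * eval₂ (Int.castRingHom ℚ_[p]) z N‖ = (p : ℝ) ^ (3 * k - 2) := by
    by_cases hz : z = 0
    · left; rw [hz, hz0, mul_zero]
    · right
      obtain ⟨k, hk⟩ := norm_value p N hN hani z hz
      refine ⟨k, ?_⟩
      rw [norm_mul, hk, norm_pow, Padic.norm_p, zpow_sub₀ hp0]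
      field_simp
  obtain ⟨h1, h2, h3⟩ := three_sum p _ _ _ hx hy hz h
  have hpq : (p : ℚ_[p]) ≠ 0 := by exact_mod_cast hp.out.ne_zero
  exact ⟨key x h1, key y ((mul_eq_zero.mp h2).resolve_left hpq),
    key z ((mul_eq_zero.mp h3).resolve_left (pow_ne_zero 2 hpq))⟩


lemma norm_mul_p_lt (x : ℤ_[p]) : ‖(p : ℤ_[p]) * x‖ < 1 := by
  rw [norm_mul, PadicInt.norm_p]
  have h1 : (1 : ℝ) < p := by exact_mod_cast hp.out.one_lt
  have h2 : ((p : ℝ))⁻¹ < 1 := inv_lt_one_of_one_lt₀ h1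
  have h3 : ‖x‖ ≤ 1 := PadicInt.norm_le_one x
  have h4 : (0 : ℝ) ≤ (p : ℝ)⁻¹ := by positivity
  nlinarith [norm_nonneg x]

lemma norm_one_add (x : ℤ_[p]) : ‖1 + (p : ℤ_[p]) * x‖ = 1 := by
  have h := norm_mul_p_lt p x
  have h1 : ‖(1 : ℤ_[p])‖ = 1 := norm_one
  rw [PadicInt.norm_add_eq_max_of_ne (by rw [h1]; exact h.ne')]
  rw [h1]
  exact max_eq_left h.le

lemma hensel' (F : Polynomial ℤ_[p]) (a x y : ℤ_[p]) (h1 : F.eval a = p * x)
    (h2 : F.derivative.eval a = 1 + p * y) :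
    ∃ z : ℤ_[p], F.eval z = 0 ∧ F.derivative.eval z ≠ 0 := by
  have h3 : ‖F.derivative.aeval a‖ = 1 := by
    rw [Polynomial.coe_aeval_eq_eval, h2, norm_one_add]
  have h4 : ‖F.aeval a‖ < ‖F.derivative.aeval a‖ ^ 2 := by
    rw [h3, Polynomial.coe_aeval_eq_eval, h1, one_pow]
    exact norm_mul_p_lt p x
  obtain ⟨z, hz, -, hz', -⟩ := hensels_lemma h4
  refine ⟨z, by rwa [Polynomial.coe_aeval_eq_eval] at hz, ?_⟩
  intro h
  rw [h3, Polynomial.coe_aeval_eq_eval, h, norm_zero] at hz'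
  exact zero_ne_one hz'

lemma root1 (κ l : ℤ_[p]) : ∃ a : ℤ_[p], a + a ^ 2 * (κ * a + l) + p * (κ * a + l) ^ 2 = 0 ∧
    1 + 2 * a * (κ * a + l) + κ * a ^ 2 + 2 * p * κ * (κ * a + l) ≠ 0 := by
  obtain ⟨z, hz, hz'⟩ := hensel' p (Polynomial.X + Polynomial.X ^ 2 * (Polynomial.C κ * Polynomial.X
    + Polynomial.C l) + Polynomial.C (p : ℤ_[p]) * (Polynomial.C κ * Polynomial.X
    + Polynomial.C l) ^ 2) 0 (l ^ 2) (2 * κ * l) (by
      simp only [Polynomial.eval_add, Polynomial.eval_mul, Polynomial.eval_pow, Polynomial.eval_X,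
        Polynomial.eval_C]
      ring) (by
      simp only [Polynomial.derivative_add, Polynomial.derivative_mul, Polynomial.derivative_X,
        Polynomial.derivative_C, Polynomial.derivative_pow, Polynomial.eval_add,
        Polynomial.eval_mul, Polynomial.eval_pow, Polynomial.eval_X, Polynomial.eval_C,
        Polynomial.eval_one, Polynomial.eval_zero]
      norm_num
      left
      ring)
  refine ⟨z, ?_, ?_⟩
  · simpa using hz
  · intro h
    apply hz'
    rw [← h]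
    simp [Polynomial.derivative_pow]
    ring

lemma root2 (κ l : ℤ_[p]) : ∃ c : ℤ_[p],
    c + (κ + p * l * c) ^ 2 + p * (κ + p * l * c) * c ^ 2 = 0 ∧
    1 + 2 * p * l * (κ + p * l * c) + 2 * p * c * (κ + p * l * c) + p ^ 2 * l * c ^ 2 ≠ 0 := by
  obtain ⟨z, hz, hz'⟩ := hensel' p (Polynomial.X + (Polynomial.C κ
    + Polynomial.C (p * l) * Polynomial.X) ^ 2 + Polynomial.C (p : ℤ_[p]) * (Polynomial.C κ
    + Polynomial.C (p * l) * Polynomial.X) * Polynomial.X ^ 2) (- κ ^ 2)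
    (- 2 * l * κ ^ 3 + p * l ^ 2 * κ ^ 4 + κ ^ 5 - p * l * κ ^ 6)
    (2 * l * (κ - p * l * κ ^ 2) - 2 * κ ^ 2 * (κ - p * l * κ ^ 2) + p * l * κ ^ 4) (by
      simp
      ring) (by
      simp [Polynomial.derivative_pow]
      ring)
  refine ⟨z, ?_, ?_⟩
  · simpa using hz
  · intro h
    apply hz'
    rw [← h]
    simp [Polynomial.derivative_pow]
    ring

/-- The key property of the ternary form. -/
lemma ternary (α β γ : ℚ_[p]) (h : ¬ (α = 0 ∧ β = 0 ∧ γ = 0)) :
    ∃ a b c a' b' c' : ℚ_[p], α * a + β * b + γ * c = 0 ∧ α * a' + β * b' + γ * c' = 0 ∧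
      ¬ (a = 0 ∧ b = 0 ∧ c = 0) ∧
      a * b ^ 2 + a ^ 2 * c + p * b * c ^ 2 = 0 ∧
      (b ^ 2 + 2 * a * c) * a' + (2 * a * b + p * c ^ 2) * b' + (a ^ 2 + 2 * p * b * c) * c' ≠ 0 := by
  have hpq : (p : ℚ_[p]) ≠ 0 := by exact_mod_cast hp.out.ne_zero
  -- dividing: if ‖x‖ ≤ ‖y‖, y ≠ 0
  have hdiv : ∀ x y : ℚ_[p], y ≠ 0 → ‖x‖ ≤ ‖y‖ → ∃ z : ℤ_[p], x = z * y := by
    intro x y hy hxy
    refine ⟨⟨x / y, ?_⟩, ?_⟩
    · rw [norm_div]
      exact div_le_one_of_le₀ hxy (norm_nonneg _)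
    · simp [div_mul_cancel₀ x hy]
  have hdivp : ∀ x y : ℚ_[p], y ≠ 0 → ‖x‖ < ‖y‖ → ∃ z : ℤ_[p], x = p * z * y := by
    intro x y hy hxy
    have h1 : ‖x / y‖ < 1 := by
      rw [norm_div]
      exact (div_lt_one (norm_pos_iff.mpr hy)).mpr hxy
    let w : ℤ_[p] := ⟨x / y, h1.le⟩
    have h2 : (p : ℤ_[p]) ∣ w := (PadicInt.norm_lt_one_iff_dvd w).mp h1
    obtain ⟨z, hz⟩ := h2
    refine ⟨z, ?_⟩
    have h3 : x / y = p * z := by
      have := congrArg (fun t : ℤ_[p] => (t : ℚ_[p])) hz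
      simpa using this
    rw [← h3, div_mul_cancel₀ x hy]
  by_cases hγ : ‖α‖ ≤ ‖γ‖ ∧ ‖β‖ ≤ ‖γ‖
  · have hγ0 : γ ≠ 0 := by
      intro h0
      rw [h0, norm_zero] at hγ
      exact h ⟨norm_le_zero_iff.mp hγ.1, norm_le_zero_iff.mp hγ.2, h0⟩
    obtain ⟨κ, hκ⟩ := hdiv α γ hγ0 hγ.1
    obtain ⟨l, hl⟩ := hdiv β γ hγ0 hγ.2
    obtain ⟨a, ha, ha'⟩ := root1 p (-κ) (-l)
    have ha1 : (a : ℚ_[p]) + a ^ 2 * (-κ * a + -l) + p * (-κ * a + -l) ^ 2 = 0 := by
      have := congrArg (fun t : ℤ_[p] => (t : ℚ_[p])) ha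
      push_cast at this
      exact this
    have ha2 : (1 : ℚ_[p]) + 2 * a * (-κ * a + -l) + -κ * a ^ 2 + 2 * p * -κ * (-κ * a + -l)
        ≠ 0 := by
      intro h0
      apply ha'
      apply Subtype.ext
      push_cast
      exact h0
    refine ⟨a, 1, -κ * a + -l, 1, 0, -κ, ?_, ?_, ?_, ?_, ?_⟩
    · rw [hκ, hl]; ring
    · rw [hκ]; ring
    · intro h; exact one_ne_zero h.2.1
    · linear_combination ha1
    · intro h0; apply ha2; linear_combination h0
  · by_cases hβ : ‖α‖ ≤ ‖β‖ ∧ ‖γ‖ < ‖β‖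
    · have hβ0 : β ≠ 0 := by
        intro h0
        rw [h0, norm_zero] at hβ
        exact absurd hβ.2 (not_lt.mpr (norm_nonneg _))
      obtain ⟨κ, hκ⟩ := hdiv α β hβ0 hβ.1
      obtain ⟨l, hl⟩ := hdivp γ β hβ0 hβ.2
      obtain ⟨c, hc, hc'⟩ := root2 p (-κ) (-l)
      have hc1 : (c : ℚ_[p]) + (-κ + p * -l * c) ^ 2 + p * (-κ + p * -l * c) * c ^ 2 = 0 := by
        have := congrArg (fun t : ℤ_[p] => (t : ℚ_[p])) hc
        push_cast at this
        exact this
      have hc2 : (1 : ℚ_[p]) + 2 * p * -l * (-κ + p * -l * c) + 2 * p * c * (-κ + p * -l * c)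
          + p ^ 2 * -l * c ^ 2 ≠ 0 := by
        intro h0
        apply hc'
        apply Subtype.ext
        push_cast
        exact h0
      refine ⟨1, -κ + p * -l * c, c, 0, p * -l, 1, ?_, ?_, ?_, ?_, ?_⟩
      · rw [hκ, hl]; ring
      · rw [hl]; ring
      · intro h; exact one_ne_zero h.1
      · linear_combination hc1
      · intro h0; apply hc2; linear_combination h0
    · have hα : ‖β‖ < ‖α‖ ∧ ‖γ‖ < ‖α‖ := by
        push Not at hγ hβ
        constructor
        · by_contra h1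
          push Not at h1
          have h2 := hβ h1
          have h3 := hγ (h1.trans h2)
          linarith
        · by_contra h1
          push Not at h1
          have h3 := hγ h1
          have h2 := hβ (h1.trans h3.le)
          linarith
      have hα0 : α ≠ 0 := by
        intro h0
        rw [h0, norm_zero] at hα
        exact absurd hα.1 (not_lt.mpr (norm_nonneg _))
      obtain ⟨κ, hκ⟩ := hdivp β α hα0 hα.1
      obtain ⟨l, hl⟩ := hdivp γ α hα0 hα.2
      obtain ⟨b, hb, hb'⟩ := root1 p (-κ) (-l)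
      have hb1 : (b : ℚ_[p]) + b ^ 2 * (-κ * b + -l) + p * (-κ * b + -l) ^ 2 = 0 := by
        have := congrArg (fun t : ℤ_[p] => (t : ℚ_[p])) hb
        push_cast at this
        exact this
      have hb2 : (1 : ℚ_[p]) + 2 * b * (-κ * b + -l) + -κ * b ^ 2 + 2 * p * -κ * (-κ * b + -l)
          ≠ 0 := by
        intro h0
        apply hb'
        apply Subtype.ext
        push_cast
        exact h0
      refine ⟨p * (-κ * b + -l), b, 1, p * -κ, 1, 0, ?_, ?_, ?_, ?_, ?_⟩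
      · rw [hκ, hl]; ring
      · rw [hκ]; ring
      · intro h; exact one_ne_zero h.2.2
      · linear_combination p * hb1
      · intro h0
        apply hb2
        apply mul_left_cancel₀ hpq
        linear_combination h0

abbrev Idx := (Fin 3 × Fin 3) ⊕ Fin 3

noncomputable def form (N : MvPolynomial (Fin 3) ℤ) : MvPolynomial Idx ℚ_[p] :=
  (∑ i : Fin 3, C ((p : ℚ_[p]) ^ (i : ℕ)) * rename (fun j => (Sum.inl (i, j) : Idx))
    (MvPolynomial.map (Int.castRingHom ℚ_[p]) N))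
  + (X (Sum.inr 0) * X (Sum.inr 1) ^ 2 + X (Sum.inr 0) ^ 2 * X (Sum.inr 2)
    + C (p : ℚ_[p]) * (X (Sum.inr 1) * X (Sum.inr 2) ^ 2))

lemma form_homog (N : MvPolynomial (Fin 3) ℤ) (hN : N.IsHomogeneous 3) :
    (form p N).IsHomogeneous 3 := by
  unfold form
  apply IsHomogeneous.add
  · apply IsHomogeneous.sum
    intro i _
    exact (IsHomogeneous.rename_isHomogeneous (hN.map _)).C_mul _
  · refine IsHomogeneous.add (IsHomogeneous.add ?_ ?_) ?_
    · exact (isHomogeneous_X _ _).mul (isHomogeneous_X_pow _ 2)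
    · exact (isHomogeneous_X_pow _ 2).mul (isHomogeneous_X _ _)
    · exact ((isHomogeneous_X _ _).mul (isHomogeneous_X_pow _ 2)).C_mul _

lemma form_eval (N : MvPolynomial (Fin 3) ℤ) (v : Idx → ℚ_[p]) :
    eval v (form p N) = eval₂ (Int.castRingHom ℚ_[p]) (fun j => v (Sum.inl (0, j))) N
      + p * eval₂ (Int.castRingHom ℚ_[p]) (fun j => v (Sum.inl (1, j))) N
      + p ^ 2 * eval₂ (Int.castRingHom ℚ_[p]) (fun j => v (Sum.inl (2, j))) N
      + (v (Sum.inr 0) * v (Sum.inr 1) ^ 2 + v (Sum.inr 0) ^ 2 * v (Sum.inr 2)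
        + p * v (Sum.inr 1) * v (Sum.inr 2) ^ 2) := by
  unfold form
  have h : ∀ i : Fin 3, eval v (rename (fun j => (Sum.inl (i, j) : Idx))
      (MvPolynomial.map (Int.castRingHom ℚ_[p]) N))
      = eval₂ (Int.castRingHom ℚ_[p]) (fun j => v (Sum.inl (i, j))) N := by
    intro i
    rw [eval_rename, eval_map]
    rfl
  simp only [map_add, map_mul, map_pow, eval_C, eval_X, h, Fin.sum_univ_three]
  simp only [Fin.val_zero, Fin.val_one, Fin.val_two, pow_zero, pow_one]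
  ring

/-- No rational line, in coordinates indexed by `Idx`. -/
lemma no_line (N : MvPolynomial (Fin 3) ℤ) (hN : N.IsHomogeneous 3)
    (hani : ∀ x : Fin 3 → ZMod p, eval₂ (Int.castRingHom (ZMod p)) x N = 0 → x = 0)
    (L : Submodule ℚ_[p] (Idx → ℚ_[p])) (hL : Module.finrank ℚ_[p] L = 2)
    (hzero : ∀ v ∈ L, eval v (form p N) = 0) : False := by
  classical
  -- if the last block is a zero of the ternary form, the first nine coordinates vanish
  have key : ∀ v ∈ L, v (Sum.inr 0) * v (Sum.inr 1) ^ 2 + v (Sum.inr 0) ^ 2 * v (Sum.inr 2)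
        + p * v (Sum.inr 1) * v (Sum.inr 2) ^ 2 = 0 → ∀ q, v (Sum.inl q) = 0 := by
    intro v hv h q
    have h1 := hzero v hv
    rw [form_eval, h, add_zero] at h1
    obtain ⟨h2, h3, h4⟩ := nine_aniso p N hN hani _ _ _ h1
    obtain ⟨i, j⟩ := q
    fin_cases i
    · exact congrFun h2 j
    · exact congrFun h3 j
    · exact congrFun h4 j
  let π : (Idx → ℚ_[p]) →ₗ[ℚ_[p]] (Fin 3 → ℚ_[p]) :=
    LinearMap.funLeft ℚ_[p] ℚ_[p] (fun j : Fin 3 => (Sum.inr j : Idx))
  let φ : L →ₗ[ℚ_[p]] (Fin 3 → ℚ_[p]) := π.domRestrict L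
  have hφ : ∀ (v : L) (j : Fin 3), φ v j = (v : Idx → ℚ_[p]) (Sum.inr j) := fun v j => rfl
  have hinj : Function.Injective φ := by
    rw [injective_iff_map_eq_zero]
    intro v hv
    have h0 : ∀ j, (v : Idx → ℚ_[p]) (Sum.inr j) = 0 := fun j => by
      rw [← hφ, hv]; rfl
    have h1 := key v v.2 (by rw [h0 0, h0 1, h0 2]; ring)
    apply Subtype.ext
    funext q
    rcases q with q | q
    · exact h1 q
    · exact h0 q
  have hrange : Module.finrank ℚ_[p] (LinearMap.range φ) = 2 := by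
    rw [LinearMap.finrank_range_of_inj hinj, hL]
  have hlt : LinearMap.range φ < ⊤ := by
    rw [lt_top_iff_ne_top]
    intro h
    rw [h, finrank_top] at hrange
    simp at hrange
  obtain ⟨f, hf0, hfle⟩ := Submodule.exists_le_ker_of_lt_top _ hlt
  have hker : Module.finrank ℚ_[p] (LinearMap.ker f) = 2 := by
    have h1 := LinearMap.finrank_range_add_finrank_ker f
    have h2 : LinearMap.range f = ⊤ := by
      apply LinearMap.range_eq_top.mpr
      exact LinearMap.surjective hf0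
    rw [h2, finrank_top] at h1
    simp at h1
    omega
  have heq : LinearMap.range φ = LinearMap.ker f :=
    Submodule.eq_of_le_of_finrank_eq hfle (by rw [hrange, hker])
  have hfval : ∀ y : Fin 3 → ℚ_[p], f y = f (Pi.single 0 1) * y 0 + f (Pi.single 1 1) * y 1
      + f (Pi.single 2 1) * y 2 := by
    intro y
    have h1 : y = y 0 • Pi.single 0 1 + y 1 • Pi.single 1 1 + y 2 • Pi.single 2 1 := by
      funext j
      fin_cases j <;> simp
    conv_lhs => rw [h1]
    simp only [map_add, map_smul, smul_eq_mul]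
    ring
  have hne : ¬ (f (Pi.single 0 1) = 0 ∧ f (Pi.single 1 1) = 0 ∧ f (Pi.single 2 1) = 0) := by
    rintro ⟨h1, h2, h3⟩
    apply hf0
    apply LinearMap.ext
    intro y
    rw [hfval]
    simp [h1, h2, h3]
  obtain ⟨a, b, c, a', b', c', h1, h2, h3, h4, h5⟩ := ternary p _ _ _ hne
  have hu : (![a, b, c] : Fin 3 → ℚ_[p]) ∈ LinearMap.range φ := by
    rw [heq, LinearMap.mem_ker, hfval]
    simpa using h1
  have hw : (![a', b', c'] : Fin 3 → ℚ_[p]) ∈ LinearMap.range φ := by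
    rw [heq, LinearMap.mem_ker, hfval]
    simpa using h2
  obtain ⟨u, hu⟩ := hu
  obtain ⟨w, hw⟩ := hw
  have u0 : (u : Idx → ℚ_[p]) (Sum.inr 0) = a := by rw [← hφ, hu]; rfl
  have u1 : (u : Idx → ℚ_[p]) (Sum.inr 1) = b := by rw [← hφ, hu]; rfl
  have u2 : (u : Idx → ℚ_[p]) (Sum.inr 2) = c := by rw [← hφ, hu]; rfl
  have w0 : (w : Idx → ℚ_[p]) (Sum.inr 0) = a' := by rw [← hφ, hw]; rfl
  have w1 : (w : Idx → ℚ_[p]) (Sum.inr 1) = b' := by rw [← hφ, hw]; rfl
  have w2 : (w : Idx → ℚ_[p]) (Sum.inr 2) = c' := by rw [← hφ, hw]; rfl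
  have ux := key u u.2 (by rw [u0, u1, u2]; exact h4)
  have hs : ∀ s : ℚ_[p], eval₂ (Int.castRingHom ℚ_[p]) (fun j => (w : Idx → ℚ_[p]) (Sum.inl (0, j))) N
      + p * eval₂ (Int.castRingHom ℚ_[p]) (fun j => (w : Idx → ℚ_[p]) (Sum.inl (1, j))) N
      + p ^ 2 * eval₂ (Int.castRingHom ℚ_[p]) (fun j => (w : Idx → ℚ_[p]) (Sum.inl (2, j))) N
      + ((s * a + a') * (s * b + b') ^ 2 + (s * a + a') ^ 2 * (s * c + c')
        + p * (s * b + b') * (s * c + c') ^ 2) = 0 := by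
    intro s
    have h6 : s • (u : Idx → ℚ_[p]) + w ∈ L := L.add_mem (L.smul_mem s u.2) w.2
    have h7 := hzero _ h6
    rw [form_eval] at h7
    simp only [Pi.add_apply, Pi.smul_apply, smul_eq_mul, ux, mul_zero, zero_add, u0, u1, u2, w0,
      w1, w2] at h7
    exact h7
  apply h5
  have e0 := hs 0
  have e1 := hs 1
  have e2 := hs (-1)
  have h8 : (2 : ℚ_[p]) * ((b ^ 2 + 2 * a * c) * a' + (2 * a * b + p * c ^ 2) * b'
      + (a ^ 2 + 2 * p * b * c) * c') = 0 := by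
    linear_combination e1 + e2 - 2 * e0
  exact (mul_eq_zero.mp h8).resolve_left two_ne_zero

/-- `Idx` has twelve elements. -/
def eqv : Idx ≃ Fin 12 := (Equiv.sumCongr finProdFinEquiv (Equiv.refl (Fin 3))).trans finSumFinEquiv

/-- For every prime `p` there is a cubic form in 12 variables over `ℚ_[p]` without rational
line. -/
theorem exists_twelve (p : ℕ) [Fact p.Prime] :
    ∃ F : MvPolynomial (Fin 12) ℚ_[p], F.IsHomogeneous 3 ∧ F ≠ 0 ∧
      ¬ ∃ u w : Fin 12 → ℚ_[p], LinearIndependent ℚ_[p] ![u, w] ∧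
        ∀ s t : ℚ_[p], MvPolynomial.eval (s • u + t • w) F = 0 := by
  obtain ⟨N, hN, hani⟩ := exists_ternary p
  refine ⟨rename eqv (form p N), IsHomogeneous.rename_isHomogeneous (form_homog p N hN), ?_, ?_⟩
  · intro h0
    have h1 : form p N = 0 := rename_injective eqv eqv.injective (by rw [h0, map_zero])
    have h2 := form_eval p N (Sum.elim (fun _ => 0) ![1, 1, 0])
    rw [h1] at h2
    have hz : eval₂ (Int.castRingHom ℚ_[p]) (fun _ : Fin 3 => (0 : ℚ_[p])) N = 0 := by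
      have := eval₂_scale (Int.castRingHom ℚ_[p]) N hN 0 (fun _ : Fin 3 => (0 : ℚ_[p]))
      simpa using this
    simp [hz] at h2
  · rintro ⟨u, w, hli, hz⟩
    let ψ : (Fin 12 → ℚ_[p]) ≃ₗ[ℚ_[p]] (Idx → ℚ_[p]) := LinearEquiv.funCongrLeft ℚ_[p] ℚ_[p] eqv
    have hL : Module.finrank ℚ_[p] (Submodule.span ℚ_[p] (Set.range ![u, w])) = 2 := by
      rw [finrank_span_eq_card hli]
      simp
    refine no_line p N hN hani ((Submodule.span ℚ_[p] (Set.range ![u, w])).map ψ.toLinearMap) ?_ ?_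
    · rw [← hL]
      exact LinearEquiv.finrank_map_eq ψ _
    · rintro v ⟨v', hv', rfl⟩
      have hset : Set.range ![u, w] = {u, w} := by
        ext x
        simp only [Set.mem_range, Set.mem_insert_iff, Set.mem_singleton_iff, Fin.exists_fin_two]
        simp [eq_comm]
      rw [hset] at hv'
      obtain ⟨s, t, rfl⟩ := Submodule.mem_span_pair.mp hv'
      have h1 := hz s t
      rw [eval_rename] at h1
      exact h1

end Pool.Agent.LibPadicCubic
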